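import Pool.Agent.H8.TD.Targets

/-!
# n3 board, PDG: the degree of a rational function
helper54
-/

set_option autoImplicit false

open MvPolynomial
open Pool.Agent.H12.ZD (pmap v O Res DenseOrbit NoInv)
open Pool.Agent.H18.HIT
open Pool.Agent.H8.ZA (HFam Const NA sz)
open Pool.Agent.H8.TD

namespace Pool.Agent.H54.TD

/-- polynomials of degree at most `n` -/
theorem mem_Wsp {κ C : Type} [Field κ] [Field C] [Algebra κ C] {a b : ℕ} (φ : Fin a → C)
    (ψ : Fin b → C) (n : ℕ) (P : MvPolynomial (Fin a) κ) (h : P.totalDegree ≤ n) :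
    aeval φ P ∈ Wsp κ φ ψ n 0 := by
  have h1 : aeval φ P = ∑ m ∈ P.support, algebraMap κ C (coeff m P) *
      m.prod fun i e => φ i ^ e := aeval_def φ P ▸ eval₂_eq _ _ _
  rw [h1]
  refine Submodule.sum_mem _ fun m hm => ?_
  rw [← Algebra.smul_def]
  apply Submodule.smul_mem
  apply Submodule.subset_span
  refine ⟨fun i => m i, fun _ => 0, ?_, ?_, ?_⟩
  · have h2 := (le_totalDegree hm).trans h
    rw [Finsupp.sum_fintype _ _ (fun _ => rfl)] at h2
    exact h2
  · simp
  · rw [Finsupp.prod_fintype _ _ (fun i => pow_zero _)]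
    simp

theorem pf_PDG (hCLZ : T_CLZ) (hLOW : T_LOW) : T_PDG := by
  intro k κ C _ _ _ _ _ _ _ _ _ a φ M δ P P₀ hfg htrs hM hP hP0 hne
  classical
  obtain ⟨ζ, hζ⟩ : ∃ ζ : C, ζ = aeval φ P / aeval φ P₀ := ⟨_, rfl⟩
  rw [← hζ]
  by_cases hfin : FiniteDimensional (IntermediateField.adjoin κ {ζ}) C
  swap
  · have h1 : dg κ {ζ} = 0 := Module.finrank_of_not_finite hfin
    rw [h1]
    exact Nat.zero_le _
  have htr : Transcendental κ ζ := by
    intro halg
    obtain ⟨y, hy⟩ := htrs
    apply hy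
    have h1 : FiniteDimensional κ (IntermediateField.adjoin κ {ζ}) :=
      IntermediateField.adjoin.finiteDimensional halg.isIntegral
    have h2 : FiniteDimensional κ C :=
      FiniteDimensional.trans κ (IntermediateField.adjoin κ {ζ}) C
    exact (Algebra.IsAlgebraic.of_finite κ C).isAlgebraic y
  obtain ⟨d, b⟩ : ∃ d : ℕ, Nonempty (Module.Basis (Fin d) (IntermediateField.adjoin κ {ζ}) C) :=
    ⟨_, ⟨Module.finBasis _ _⟩⟩
  obtain ⟨b⟩ := b
  obtain ⟨R, hR⟩ : ∃ R : Subalgebra κ C, R = Algebra.adjoin κ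
      (Set.range φ ∪ Set.range b ∪ {(aeval φ P₀)⁻¹}) := ⟨_, rfl⟩
  have hRfg : R.FG := by
    rw [Subalgebra.fg_def]
    exact ⟨_, ((Set.finite_range φ).union (Set.finite_range b)).union (Set.finite_singleton _),
      hR.symm⟩
  have hφ : ∀ i, φ i ∈ R := fun i => by
    rw [hR]
    exact Algebra.subset_adjoin (Or.inl (Or.inl ⟨i, rfl⟩))
  have hb : ∀ i, b i ∈ R := fun i => by
    rw [hR]
    exact Algebra.subset_adjoin (Or.inl (Or.inr ⟨i, rfl⟩))
  have hinv : (aeval φ P₀)⁻¹ ∈ R := by
    rw [hR]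
    exact Algebra.subset_adjoin (Or.inr rfl)
  have hpol : ∀ T : MvPolynomial (Fin a) κ, aeval φ T ∈ R := by
    intro T
    induction T using MvPolynomial.induction_on with
    | C c =>
      rw [aeval_C]
      exact Subalgebra.algebraMap_mem _ _
    | add p q hp hq =>
      rw [map_add]
      exact add_mem hp hq
    | mul_X p i hp =>
      rw [map_mul, aeval_X]
      exact mul_mem hp (hφ i)
  have hζR : ζ ∈ R := by
    rw [hζ, div_eq_mul_inv]
    exact mul_mem (hpol P) hinv
  have hadj : IntermediateField.adjoin κ (R : Set C) = ⊤ := by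
    rw [eq_top_iff]
    intro x _
    rw [← b.sum_repr x]
    refine sum_mem fun i _ => ?_
    rw [Algebra.smul_def]
    refine mul_mem ?_ (IntermediateField.subset_adjoin κ _ (hb i))
    have h1 : IntermediateField.adjoin κ {ζ} ≤ IntermediateField.adjoin κ (R : Set C) :=
      IntermediateField.adjoin_simple_le_iff.2 (IntermediateField.subset_adjoin κ _ hζR)
    exact h1 (b.repr x i).2
  have hbad := hLOW κ C R ⟨ζ, hζR⟩ hRfg hadj htr hfin
  obtain ⟨c, hc⟩ := (hbad.preimage (f := algebraMap k κ)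
    (algebraMap k κ).injective.injOn).infinite_compl.nonempty
  have hc' : Module.finrank κ (R ⧸ Ideal.span {(⟨ζ, hζR⟩ : R) -
      algebraMap κ R (algebraMap k κ c)}) = dg κ {ζ} := by
    by_contra h
    exact hc h
  rw [← hc']
  -- the section
  obtain ⟨S, hS⟩ : ∃ S : R, (S : C) = aeval φ (P - MvPolynomial.C (algebraMap k κ c) * P₀) :=
    ⟨⟨_, hpol _⟩, rfl⟩
  have hSC : (S : C) = aeval φ P₀ * (ζ - algebraMap κ C (algebraMap k κ c)) := by
    rw [hS, map_sub, map_mul, aeval_C, hζ]
    field_simp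
  have hne1 : ζ - algebraMap κ C (algebraMap k κ c) ≠ 0 := by
    intro h
    apply htr
    rw [sub_eq_zero.1 h]
    exact isAlgebraic_algebraMap _
  have hS0 : S ≠ 0 := by
    intro h
    rw [h, ZeroMemClass.coe_zero] at hSC
    exact mul_ne_zero hne hne1 hSC.symm
  have hspan : Ideal.span {(⟨ζ, hζR⟩ : R) - algebraMap κ R (algebraMap k κ c)} =
      Ideal.span {S} := by
    apply le_antisymm
    · rw [Ideal.span_singleton_le_span_singleton]
      refine ⟨⟨_, hinv⟩, ?_⟩
      apply Subtype.ext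
      change ζ - algebraMap κ C (algebraMap k κ c) = (S : C) * (aeval φ P₀)⁻¹
      rw [hSC]
      field_simp
    · rw [Ideal.span_singleton_le_span_singleton]
      refine ⟨⟨_, hpol P₀⟩, ?_⟩
      apply Subtype.ext
      change (S : C) = (ζ - algebraMap κ C (algebraMap k κ c)) * aeval φ P₀
      rw [hSC, mul_comm]
  rw [hspan]
  have hdeg : (P - MvPolynomial.C (algebraMap k κ c) * P₀).totalDegree ≤ δ := by
    refine (totalDegree_sub _ _).trans (max_le hP ?_)
    refine (totalDegree_mul _ _).trans ?_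
    rw [totalDegree_C, zero_add]
    exact hP0
  have hfinal := (hCLZ k κ C a 0 φ (fun i => i.elim0) M (dg κ {(0 : C)}) δ 0 R hfg hRfg hφ
    (fun i => i.elim0) hM (fun s => by
      have h1 : lc s (fun i : Fin 0 => (i.elim0 : C)) = 0 := by
        unfold lc
        exact Finset.sum_of_isEmpty _
      rw [h1]) S (by
      rw [hS]
      exact mem_Wsp φ _ δ _ hdeg) hS0).2
  rw [zero_mul, add_zero] at hfinal
  exact hfinal

end Pool.Agent.H54.TD
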